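import Pool.Agent.helper67.TPD.Spec

/-!
# Project tpe (MP_ebc808_nt): theorem P5, the parity of `p(n)` and finite multiplicative structures

THEOREM. For all `i`, `a`, `g` there are `c > 0` and `X₀` such that for every set `S` with at most `g` elements, every binary operation `op` on `S`, every `F : ℕ → S`
with `F(mn) = op (F m) (F n)` for coprime `m, n`, every `Φ : S → ZMod 2` and all `X ≥ X₀`:
`#{n ≤ X : n = a mod 2^i, p(n) ≠ Φ(F(24 n - 1)) mod 2} ≥ c X^(3/4)/(log X)^2`.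

`B = 2^(2κ+1) = 2 * 4^κ`. `k_x` = product of `2x+1` primes, `M_y` = product of `2^κ - 2 - 2y` primes, `x, y < T = 2^(κ-1) - 1`, all primes `= 7 mod 24`, one large prime in each, the others
fixed. By Lemma Q the matrix `R_B(k_x, M_y)` is upper unitriangular. If all the values in the identities (SUMP of project pq) of the `T^2` pairs were `Φ(F(24n-1))`, the matrix would be
`∑_u Φ(op (F k_x) (F (M_y - B u²))) + ∑_u Φ(op (F (k_x - B u²)) (F M_y))`: at most `g` different rows plus at most `g` different columns, rank `≤ 2g < T`.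

RULES. File `Pool/Agent/<seat>/TPE/XX.lean`, `import Pool.Agent.helper67.TPE.Spec`, `namespace Pool.Agent.TPE`, `open Finset Pool.Agent.EP Pool.Agent.PQ`,
auxiliary lemmas prefixed `XX_`; other rows only as hypotheses.
-/

set_option autoImplicit false

open Finset PowerSeries

noncomputable section

namespace Pool.Agent.TPE

open Pool.Agent.EP Pool.Agent.PQ

/-- The binary digits of `n` read to the base `4`: `sg (∑ b_j 2^j) = ∑ b_j 4^j`. -/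
def sg (n : ℕ) : ℕ := Nat.ofDigits 4 (Nat.digits 2 n)

/-- The leading exponent for a product of `b` primes `= 7 mod 24`. -/
def dl (b : ℕ) : ℕ := 1 + 6 * sg b

/-- **LQG**: LEMMA Q for every number of primes (block of helper57). -/
def LQG_stmt : Prop := ∀ s : Finset ℕ, (∀ q ∈ s, q.Prime ∧ q % 24 = 7) →
  (∀ x : ℕ, x < dl #s → x.Coprime 6 → (vvx ^ x).coeff ((∏ q ∈ s, q : ℕ) : ℤ) = 0) ∧
  (vvx ^ dl #s).coeff ((∏ q ∈ s, q : ℕ) : ℤ) = 1

/-- Multiplicative with respect to a binary operation. -/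
def Mlt (S : Type) (op : S → S → S) (F : ℕ → S) : Prop := ∀ m n : ℕ, m.Coprime n → F (m * n) = op (F m) (F n)

/-- A pair is exceptional or leads to an `n` with `p(n) ≠ r(n)`. -/
def BadR (b A C P R : ℕ) (r : ℕ → ZMod 2) : Prop :=
  ExcP (2 ^ b) A C P R ∨ ∃ n : ℕ, RelP (2 ^ b) A C P R n ∧ pp n ≠ r n

/-- The data: `T` types, `2 T + 2 = 2^κ`, `b = 2κ+1`. -/
structure D5 (i a κ T : ℕ) (sA sC : ℕ → Finset ℕ) (m : ℕ) (cA cC : ℕ → ℕ) : Prop where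
  tk : 2 * T + 2 = 2 ^ κ
  ib : i + 3 ≤ 2 * κ + 1
  hA : ∀ x < T, ∀ q ∈ sA x, q.Prime ∧ q % 24 = 7
  hC : ∀ y < T, ∀ q ∈ sC y, q.Prime ∧ q % 24 = 7
  cdA : ∀ x < T, #(sA x) = 2 * x
  cdC : ∀ y < T, #(sC y) + 2 * y + 3 = 2 ^ κ
  m0 : 0 < m
  cpA : ∀ x < T, (cA x).Coprime m
  cpC : ∀ y < T, (cC y).Coprime m
  kA : ∀ x < T, ∀ P : ℕ, P % m = cA x % m → P % 24 = 7 ∧ ((∏ q ∈ sA x, q) * P) % 24 = 7 ∧
    ∀ y < T, ∀ q ∈ sC y, q ∣ (∏ q ∈ sA x, q) * P + 1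
  kC : ∀ y < T, ∀ R : ℕ, R % m = cC y % m → R % 24 = 7 ∧ ((∏ q ∈ sC y, q) * R) % 24 = 1 ∧
    ∀ x < T, ∀ q ∈ sA x, q ∣ (∏ q ∈ sC y, q) * R + 1
  cls : ∀ x < T, ∀ y < T, ∀ P R : ℕ, P % m = cA x % m → R % m = cC y % m →
    ((∏ q ∈ sA x, q) * P * ((∏ q ∈ sC y, q) * R) + 1) % 2 ^ (2 * κ + 1) = (24 * a) % 2 ^ (2 * κ + 1)

/-- **CRG** (medium, 180 lines; pure arithmetic: like tpd:CRM, tpc:CL1 (Pool/Agent/helper56/TPC/CL1.lean)). The data exist. `κ = i + g + 3`, `T = 2^(κ-1) - 1 > 2 g`, `b = 2κ+1`.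
Proof. Let `q_0 < q_1 < ...` be an enumeration of (infinitely many) primes `= 7 mod 24` (for instance `Nat.nth` of the infinite set, `Nat.infinite_setOf_prime_and_eq_mod`; or `Nat.exists_strictMono_subsequence`). With `K = 2^κ` put
`U = {q_0, ..., q_(K-1)}`, `V = {q_K, ..., q_(2K-1)}`, `sA x = {q_0, ..., q_(2x-1)}` (subset of `U`), `sC y = {q_K, ..., q_(K + n - 1)}`, `n = 2^κ - 3 - 2y` (subset of `V`). `m = 3 * 2^b * ∏_(U ∪ V) q`. For given `x` let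
`A = ∏_(sA x) q`; `A = 7^(2x) = 1 mod 24`; by CRT choose `c = cA x` with `A c = -1 mod 2^b`, `c = 1 mod 3`, `A c = -1 mod q` for `q ∈ V`, `c = 1 mod q` for `q ∈ U` (`A` is prime to `2^b` and to the `q ∈ V`). For given `y` let `C = ∏_(sC y) q`;
`C = 7^n = 7 mod 24` (`n` odd); `c = cC y` with `C c = 1 - 24 a mod 2^b`, `c = 1 mod 3`, `C c = -1 mod q` for `q ∈ U`, `c = 1 mod q` for `q ∈ V`. All classes are prime to `m`. `P = -1 mod 8` (`A = 1 mod 8`), `= 1 mod 3`: `P = 7 mod 24`;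
`C R = 1 mod 8` and `C R = 1 mod 3` (`C = 1 mod 3`), so `C R = 1 mod 24` and `R = 7 mod 24` (`7 * 7 = 1`). `A P C R + 1 = -(1 - 24a) + 1 = 24 a mod 2^b`. -/
def CRG_stmt : Prop := ∀ i a g : ℕ, ∃ (κ T : ℕ) (sA sC : ℕ → Finset ℕ) (m : ℕ) (cA cC : ℕ → ℕ), 2 * g < T ∧
  D5 i a κ T sA sC m cA cC

/-- **SGP** (short, 70 lines). Digits. Proof. `sg n = n % 2 + 4 * sg (n / 2)` for `n > 0` (`Nat.digits_def'`, `Nat.ofDigits_cons`), `sg 0 = 0`; strong induction: (1) `sg` is strictly increasing: compare `n / 2`, `m / 2` and the last digits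
(`4 (sg (m/2)) + m % 2` with `sg (m/2) ≥ sg (n/2) + 1` or equal halves). (2) `sg j + sg (2^κ - 1 - j) = sg (2^κ - 1)`: induction on `κ`: the last digits of `j` and of `2^κ - 1 - j` add up to `1`, the halves are `j/2` and
`2^(κ-1) - 1 - j/2`. (3) `3 sg (2^κ - 1) + 1 = 4^κ`. -/
def SGP_stmt : Prop := (∀ m n : ℕ, m < n → sg m < sg n) ∧
  (∀ κ j : ℕ, j < 2 ^ κ → sg j + sg (2 ^ κ - 1 - j) = sg (2 ^ κ - 1)) ∧ ∀ κ : ℕ, 3 * sg (2 ^ κ - 1) + 1 = 4 ^ κ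

/-- **RBT** (medium, 90 lines; from LQG, SGP, VCL of project pq). The matrix of the right sides. `b = 2κ + 1`, `B = 2^b = 2 * 4^κ = 2 + 6 sg (2^κ - 1)`. `j = #s' ` complementary: `#s' + j + 1 = 2^κ`.
Proof. `k = ∏_s q = 7 mod 24` (an odd number `i` of primes `7 mod 24`). A summand `x` of `RB b k M` which is not `0`: `24 ∣ k - x` (VCL), so `x = 7 mod 24` is prime to `6`, `B - x = 8 - 7 = 1 mod 24` is prime to `6` (`2^b = 8 mod 24` for odd `b ≥ 3`),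
so by LQG `x ≥ dl i` and `B - x ≥ dl (2^κ - 1 - j)`; hence `B ≥ 2 + 6 (sg i + sg (2^κ - 1 - j)) = B + 6 (sg i - sg j)`, i.e. `sg i ≤ sg j`, `i ≤ j`. So the sum is `0` if `j < i`. If `i = j` only `x = dl i` remains (`B - dl i = dl (2^κ - 1 - i)`), both factors are
`1` by LQG; `1 ≤ dl i < B`. -/
def RBT_stmt : Prop := LQG_stmt → ∀ (κ i j : ℕ) (s s' : Finset ℕ), 1 ≤ κ → (∀ q ∈ s, q.Prime ∧ q % 24 = 7) → (∀ q ∈ s', q.Prime ∧ q % 24 = 7) →
  #s = i → i % 2 = 1 → #s' + j + 1 = 2 ^ κ → i < 2 ^ κ → (i = j → RB (2 * κ + 1) (∏ q ∈ s, q) (∏ q ∈ s', q) = 1) ∧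
    (j < i → RB (2 * κ + 1) (∏ q ∈ s, q) (∏ q ∈ s', q) = 0)

/-- **KM** (medium, 110 lines; from SUMP of project pq; compare tpd:KY1). The relation for one pair which is not bad. Proof. SUMP (`A P = 7 mod 24` gives `(A P) % 6 = 1`; `C R = 1 mod 24` is odd). First sum, `u ∈ uB b (C R)`: `2^b u^2 < C R`
(`C R` is odd), `N = k (M - 2^b u^2)` is `7 (1 - 8) = 23 mod 24` (`2^b = 8 mod 24` for odd `b ≥ 3`, `u^2 = 1 mod 24`), `n = (N+1)/24`, `24 n = N + 1`, RelP holds, so (the pair is not bad) `pp n = Φ (F (24 n - 1)) = Φ (F N)`, and `ac N = pp n`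
(definition of `ac`); `k = A P` is prime to `M - 2^b u^2` (`A` by hypothesis, `P` does not divide it since the pair is not exceptional), so `F N = op (F k) (F (M - 2^b u^2))`. Second sum the same: `N = (k - 2^b u^2) M = (7 - 8) * 1 = 23 mod 24`. -/
def KM_stmt : Prop := ∀ (S : Type) (op : S → S → S) (F : ℕ → S) (Φ : S → ZMod 2), Mlt S op F →
  ∀ b A C P R : ℕ, b % 2 = 1 → 3 ≤ b → P.Prime → R.Prime → (A * P) % 24 = 7 → (C * R) % 24 = 1 →
  ¬ BadR b A C P R (fun n => Φ (F (24 * n - 1))) →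
  (∀ u : ℕ, 2 ^ b * u ^ 2 < C * R → Nat.Coprime A (C * R - 2 ^ b * u ^ 2)) →
  (∀ u : ℕ, 2 ^ b * u ^ 2 < A * P → Nat.Coprime (A * P - 2 ^ b * u ^ 2) C) →
  (∑ u ∈ uB b (C * R), Φ (op (F (A * P)) (F (C * R - 2 ^ b * u ^ 2)))) +
    (∑ u ∈ uB b (A * P), Φ (op (F (A * P - 2 ^ b * u ^ 2)) (F (C * R)))) = RB b (A * P) (C * R)

/-- **RNK** (short, 70 lines; linear algebra). Proof. Suppose the matrix `N x y = G (U x) y + H x (V y)` is upper unitriangular. Then `det N = 1` (`Matrix.det_of_upperTriangular`) and its rank is `T` (`Matrix.rank_of_isUnit`). But `N = P₁ * G + H * P₂` with the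
`T × S` matrix `P₁ x s = [U x = s]` and the `S × T` matrix `P₂ s y = [V y = s]`, and products through `S` have rank at most `card S` (`Matrix.rank_mul_le_left`, `Matrix.rank_le_card_width`, `Matrix.rank_mul_le_right`, `Matrix.rank_le_card_height`,
`Matrix.rank_add_le`). So `T ≤ 2g`. -/
def RNK_stmt : Prop := ∀ (S : Type) [Fintype S] (T g : ℕ) (U V : Fin T → S) (G : S → Fin T → ZMod 2) (H : Fin T → S → ZMod 2),
  Fintype.card S ≤ g → 2 * g < T →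
  ¬ ∀ x y : Fin T, (x = y → G (U x) y + H x (V y) = 1) ∧ (y < x → G (U x) y + H x (V y) = 0)

/-- **GRD** (medium, 90 lines; from KM, RNK, RBT, NR of project pq). Every grid contains a bad pair. Proof. Otherwise KM for all pairs, `b = 2κ+1 ≥ 3` (`κ ≥ 1` since `T ≥ 1`). The coprimality: a prime divisor of `∏_(sA x) q` is some `q ∈ sA x`, `q ∣ M_y + 1` (`kC`), NR
(`q = 7 mod 8`); a prime divisor of `∏_(sC y) q` is some `q ∈ sC y`, `q ∣ k_x + 1` (`kA`), NR. RBT with `s = insert (P x) (sA x)`, `s' = insert (R y) (sC y)`, `i = 2x+1`, `j = 2y+1`: the right sides are `1` for `x = y`, `0` for `y < x`. RNK with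
`U x = F (k_x)`, `V y = F (M_y)`, `G s y = ∑_(u ∈ uB b M_y) Φ (op s (F (M_y - 2^b u^2)))`, `H x s = ∑_(u ∈ uB b k_x) Φ (op (F (k_x - 2^b u^2)) s)`. -/
def GRD_stmt : Prop := LQG_stmt → ∀ (S : Type) [Fintype S] (op : S → S → S) (F : ℕ → S) (Φ : S → ZMod 2), Mlt S op F →
  ∀ (i a κ T g : ℕ) (sA sC : ℕ → Finset ℕ) (m : ℕ) (cA cC : ℕ → ℕ), Fintype.card S ≤ g → 2 * g < T → D5 i a κ T sA sC m cA cC →
  ∀ P R : ℕ → ℕ, (∀ x < T, (P x).Prime ∧ P x % m = cA x % m ∧ P x ∉ sA x) → (∀ y < T, (R y).Prime ∧ R y % m = cC y % m ∧ R y ∉ sC y) →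
  ∃ x < T, ∃ y < T, BadR (2 * κ + 1) (∏ q ∈ sA x, q) (∏ q ∈ sC y, q) (P x) (R y) (fun n => Φ (F (24 * n - 1)))

open Classical in
/-- **QUG** (short, 60 lines). Proof. For `x < T` let `A' x ⊆ A x` have exactly `N` elements, enumerated as `α x : Fin N → ℕ` (injective, for instance `Finset.orderEmbOfCardLe` gives an embedding of `Fin N` into `A x` directly), the same for `C y`: `γ y`. For
`(k, l) ∈ Fin N × Fin N` the choice `p x = α x k`, `q y = γ y l` gives some `(x, y)` with `(α x k, γ y l) ∈ E x y`. The map `(k, l) ↦ (x, y, (α x k, γ y l))` is injective into the disjoint union of the `E x y` (`Finset.card_sigma` / `card_biUnion_le`), so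
`N^2 ≤ ∑ #(E x y)`. -/
def QUG_stmt : Prop := ∀ (T N : ℕ) (A C : ℕ → Finset ℕ) (E : ℕ → ℕ → Finset (ℕ × ℕ)), (∀ x < T, N ≤ #(A x)) → (∀ y < T, N ≤ #(C y)) →
  (∀ p q : ℕ → ℕ, (∀ x < T, p x ∈ A x) → (∀ y < T, q y ∈ C y) → ∃ x < T, ∃ y < T, (p x, q y) ∈ E x y) →
  N ^ 2 ≤ ∑ x ∈ range T, ∑ y ∈ range T, #(E x y)

/-- **CNG** (medium-long, 180 lines; from CNL and CLR of project pq, QUG, GRD, CRG and `Pool.Agent.helper7.OC.primes_ap` (Pool/Agent/helper29/OC/PIAP.lean); compare tpd:CNQ, Pool/Agent/helper8/TPC/FIN.lean). Proof. Fix the data for `i, a, g`, `b = 2κ+1`. `primes_ap` for the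
`2T` classes: common `c₀ > 0`, `y₀`. For large `y` (larger than all elements of the sets) the sets `A x`, `C y'` of the primes of `(y, 2y]` in the classes have at least `N = ⌊c₀ y/log y⌋₊` elements, `N ≥ (c₀/2) y/log y`. `E x y'` := the pairs of `A x ×ˢ C y'` with
`BadR`. By GRD and QUG (the hypothesis of QUG is GRD) `N^2 ≤ ∑ #(E x y')`, so some `E x y'` has at least `N^2/T^2 ≥ c y^2/(log y)^2` elements, `c = c₀^2/(4 T^2)`. CNL for `(2^b, ∏_(sA x) q, ∏_(sC y') q)` and this `c` gives `c₁(x, y')`; take the minimum over the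
`T^2` pairs, and the maximum of the `y₁`. `T` of CNL `= E x y'`, `S` of CNL = the set counted by `Nr i a r (D y^2)`, `D = ∏_(x < T) ∏_(sA x) q * ∏_(y' < T) ∏_(sC y') q`: a bad pair which is not exceptional leads to an `n` with `pp n ≠ r n`,
`n ≤ Q₁ Q₂ y^2 ≤ D y^2` (`24 n ≤ 4 Q₁ Q₂ y^2 + 1`), and `n = a mod 2^i` by CLR and `cls`. The constants do not depend on `S, op, F, Φ`. -/
def CNG_stmt : Prop := LQG_stmt → ∀ i a g : ℕ, ∃ (D y₀ : ℕ) (c₁ : ℝ), 0 < D ∧ 0 < c₁ ∧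
  ∀ (S : Type) [Fintype S] (op : S → S → S) (F : ℕ → S) (Φ : S → ZMod 2), Mlt S op F → Fintype.card S ≤ g →
  ∀ y : ℕ, y₀ ≤ y → c₁ * (y : ℝ) ^ (3 / 2 : ℝ) / Real.log y ^ 2 ≤ (Nr i a (fun n => Φ (F (24 * n - 1))) (D * y ^ 2) : ℝ)

/-- **MAIN**. -/
def MAIN_stmt : Prop := ∀ i a g : ℕ, ∃ c : ℝ, 0 < c ∧ ∃ X₀ : ℕ,
  ∀ (S : Type) [Fintype S] (op : S → S → S) (F : ℕ → S) (Φ : S → ZMod 2), Mlt S op F → Fintype.card S ≤ g →
  ∀ X : ℕ, X₀ ≤ X → c * (X : ℝ) ^ (3 / 4 : ℝ) / Real.log X ^ 2 ≤ (Nr i a (fun n => Φ (F (24 * n - 1))) X : ℝ)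

theorem MAIN_of (hLQG : LQG_stmt) (hCNG : CNG_stmt) (hXFU : Pool.Agent.TPD.XFU_stmt) : MAIN_stmt := by
  intro i a g
  obtain ⟨D, y₀, c₁, hD, hc₁, h⟩ := hCNG hLQG i a g
  obtain ⟨c, hc, X₀, h2⟩ := hXFU D y₀ c₁ hD hc₁
  refine ⟨c, hc, X₀, fun S _ op F Φ hF hg X hX => h2 (Nr i a (fun n => Φ (F (24 * n - 1)))) ?_ (h S op F Φ hF hg) X hX⟩
  intro X Y hXY
  unfold Nr
  refine Finset.card_le_card fun n hn => ?_
  simp only [mem_filter, mem_range] at hn ⊢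
  exact ⟨by omega, hn.2⟩

end Pool.Agent.TPE
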